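import Pool.Agent.H242R3.ES.Stmts

set_option autoImplicit false

/-! # ES-TLa: the Gaussian solid angle of a simplicial cone, by a linear change of variables -/

open MeasureTheory Finset
open scoped Classical

namespace Pool.Agent.H023R3.ES

open Pool.Agent.H242R3.ES

variable {κ : Type} {m : ℕ}

/-- the matrix of coordinates of the vectors `u j`, `j ∈ s` -/
def mat (s : Finset κ) (u : κ → EuclideanSpace ℝ (Fin m)) (e : s ≃ Fin m) : Matrix s s ℝ :=
  fun i j => u j (e i)

lemma GU_eq (s : Finset κ) (u : κ → EuclideanSpace ℝ (Fin m)) (e : s ≃ Fin m) :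
    GU s u = (mat s u e).transpose * mat s u e := by
  ext i k
  simp only [GU, Matrix.mul_apply, Matrix.transpose_apply, mat, PiLp.inner_apply]
  rw [← e.sum_comp]
  refine Finset.sum_congr rfl fun j _ => ?_
  simp [mul_comm]

lemma sqrt_det (s : Finset κ) (u : κ → EuclideanSpace ℝ (Fin m)) (e : s ≃ Fin m) :
    Real.sqrt (GU s u).det = |(mat s u e).det| := by
  rw [GU_eq s u e, Matrix.det_mul, Matrix.det_transpose, ← pow_two, Real.sqrt_sq_eq_abs]

/-- coordinates of a vector, reindexed by `s` -/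
noncomputable def psi (s : Finset κ) (e : s ≃ Fin m) (y : EuclideanSpace ℝ (Fin m)) : s → ℝ :=
  WithLp.ofLp (LinearIsometryEquiv.piLpCongrLeft 2 ℝ ℝ e.symm y)

lemma psi_apply (s : Finset κ) (e : s ≃ Fin m) (y : EuclideanSpace ℝ (Fin m)) (i : s) :
    psi s e y i = y (e i) := by
  simp [psi, LinearIsometryEquiv.piLpCongrLeft_apply, Equiv.piCongrLeft'_apply]

lemma psi_mp (s : Finset κ) (e : s ≃ Fin m) :
    MeasurePreserving (psi s e) (volume : Measure (EuclideanSpace ℝ (Fin m)))
      (volume : Measure (s → ℝ)) :=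
  (PiLp.volume_preserving_ofLp s).comp
    (LinearIsometryEquiv.piLpCongrLeft 2 ℝ ℝ e.symm).measurePreserving

lemma psi_emb (s : Finset κ) (e : s ≃ Fin m) : MeasurableEmbedding (psi s e) :=
  (MeasurableEquiv.toLp 2 (s → ℝ)).symm.measurableEmbedding.comp
    (LinearIsometryEquiv.piLpCongrLeft 2 ℝ ℝ e.symm).toHomeomorph.toMeasurableEquiv.measurableEmbedding

lemma psi_inj (s : Finset κ) (e : s ≃ Fin m) : Function.Injective (psi s e) := (psi_emb s e).injective

lemma psi_sum (s : Finset κ) (u : κ → EuclideanSpace ℝ (Fin m)) (e : s ≃ Fin m) (x : s → ℝ) :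
    psi s e (∑ i : s, x i • u i) = (mat s u e).mulVec x := by
  ext i
  rw [psi_apply]
  simp only [Matrix.mulVec, dotProduct, mat]
  rw [WithLp.ofLp_sum, Finset.sum_apply]
  refine Finset.sum_congr rfl fun j _ => ?_
  simp [mul_comm]

lemma norm_psi (s : Finset κ) (e : s ≃ Fin m) (y : EuclideanSpace ℝ (Fin m)) :
    ∑ i, psi s e y i ^ 2 = ‖y‖ ^ 2 := by
  rw [EuclideanSpace.norm_sq_eq, ← e.sum_comp]
  refine Finset.sum_congr rfl fun i _ => ?_
  rw [psi_apply, Real.norm_eq_abs, sq_abs]

theorem tla (s : Finset κ) (u : κ → EuclideanSpace ℝ (Fin m)) (hc : s.card = m)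
    (hl : LinearIndependent ℝ (fun i : s => u i)) :
    Real.sqrt (GU s u).det *
      ∫ x in {x : s → ℝ | ∀ i, 0 ≤ x i},
        Real.exp (-Real.pi * ∑ i : s, ∑ k : s, x i * inner ℝ (u i) (u k) * x k) =
      ∫ y in {y | ∃ x : s → ℝ, (∀ i, 0 ≤ x i) ∧ y = ∑ i, x i • u i},
        Real.exp (-Real.pi * ‖y‖ ^ 2) := by
  have e : s ≃ Fin m := s.equivFinOfCardEq hc
  set A := mat s u e with hA
  -- the linear map
  have hinj : Function.Injective (fun x : s → ℝ => A.mulVec x) := by
    intro x x' h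
    have h' : A.mulVec x = A.mulVec x' := h
    rw [hA, ← psi_sum, ← psi_sum] at h'
    have h2 := psi_inj s e h'
    have h3 : ∑ i : s, (x i - x' i) • u i = 0 := by
      simp only [sub_smul, Finset.sum_sub_distrib]
      rw [h2, sub_self]
    have h4 := (Fintype.linearIndependent_iff.1 hl) (fun i => x i - x' i) h3
    funext i
    have := h4 i
    linarith
  have hquad : ∀ x : s → ℝ, ∑ i : s, ∑ k : s, x i * inner ℝ (u i) (u k) * x k =
      ∑ i, (A.mulVec x) i ^ 2 := by
    intro x
    rw [hA, ← psi_sum, norm_psi, ← real_inner_self_eq_norm_sq, sum_inner]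
    refine Finset.sum_congr rfl fun i _ => ?_
    rw [inner_sum]
    refine Finset.sum_congr rfl fun k _ => ?_
    rw [real_inner_smul_left, real_inner_smul_right]
    ring
  have hmeas : MeasurableSet {x : s → ℝ | ∀ i, 0 ≤ x i} := by
    rw [Set.ofPred_forall]
    exact MeasurableSet.iInter fun i => measurableSet_le measurable_const (measurable_pi_apply i)
  have hchange := integral_image_eq_integral_abs_det_fderiv_smul (μ := (volume : Measure (s → ℝ)))
    (s := {x : s → ℝ | ∀ i, 0 ≤ x i}) (f := fun x : s → ℝ => A.mulVec x)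
    (f' := fun _ => LinearMap.toContinuousLinearMap (Matrix.toLin' A)) hmeas
    (fun x _ => by
      have : HasFDerivAt (fun x : s → ℝ => A.mulVec x)
        (LinearMap.toContinuousLinearMap (Matrix.toLin' A)) x := by
        have h0 := (LinearMap.toContinuousLinearMap (Matrix.toLin' A)).hasFDerivAt (x := x)
        exact h0
      exact this.hasFDerivWithinAt)
    hinj.injOn (fun z => Real.exp (-Real.pi * ∑ i, z i ^ 2))
  have hdet : (LinearMap.toContinuousLinearMap (Matrix.toLin' A)).det = A.det := by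
    simp [ContinuousLinearMap.det]
  have hcone : {y | ∃ x : s → ℝ, (∀ i, 0 ≤ x i) ∧ y = ∑ i, x i • u i} =
      psi s e ⁻¹' ((fun x : s → ℝ => A.mulVec x) '' {x : s → ℝ | ∀ i, 0 ≤ x i}) := by
    ext y
    constructor
    · rintro ⟨x, hx, rfl⟩
      exact ⟨x, hx, (psi_sum s u e x).symm⟩
    · rintro ⟨x, hx, hxy⟩
      refine ⟨x, hx, psi_inj s e ?_⟩
      rw [psi_sum]
      exact hxy.symm
  rw [hcone]
  have hR : ∫ y in psi s e ⁻¹' ((fun x : s → ℝ => A.mulVec x) '' {x : s → ℝ | ∀ i, 0 ≤ x i}),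
      Real.exp (-Real.pi * ‖y‖ ^ 2) =
      ∫ z in (fun x : s → ℝ => A.mulVec x) '' {x : s → ℝ | ∀ i, 0 ≤ x i},
        Real.exp (-Real.pi * ∑ i, z i ^ 2) := by
    rw [← (psi_mp s e).setIntegral_preimage_emb (psi_emb s e)]
    simp only [norm_psi]
  rw [hR, hchange, sqrt_det s u e]
  simp only [hdet, smul_eq_mul]
  rw [integral_const_mul]
  simp only [hquad, ← hA]

end Pool.Agent.H023R3.ES
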